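import Pool.Agent.H9.DynMod.Main

/-!
# Rational components of dynamical moduli spaces with periodic level structure
-/

namespace Pool.Agent.Results.MP_6aac57_ag.RationalComponents

open Pool.Agent.H9.DynMod

/-- For all `N ≥ 2` and `d ≥ 2` there is a family `f_t`, `t ∈ ℂ`, of endomorphisms of `P^N` of
degree `d`, with coefficients polynomial in `t`, such that every member is conjugate to only
finitely many others, and such that for every `n ≥ 1` some point of `P^N` that does not depend on
`t` has exact period `n` for all `f_t` at once. So, if `Γ` is the Zariski closure of the image of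
the affine line in `M_d^N`, an irreducible curve, then for every `n ≥ 1` a component of
`i_n⁻¹(Γ)` is dominated by the affine line `t ↦ (f_t, P)`. -/
theorem result (N d : ℕ) (hN : 2 ≤ N) (hd : 2 ≤ d) :
    ∃ f : Fin (N + 1) → MvPolynomial (Fin (N + 1)) (Polynomial ℂ),
      (∀ t, IsEndo d (member f t)) ∧
      (∀ t, {s | ConjEndo (member f s) (member f t)}.Finite) ∧
      ∀ n, 1 ≤ n → ∃ P : Fin (N + 1) → ℂ, ∀ t, ExactPeriod (member f t) n P :=
  main N d hN hd

end Pool.Agent.Results.MP_6aac57_ag.RationalComponents
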